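import Pool.Agent.Lib.MP_c5b475_co.KN.Top
import Pool.Agent.Lib.MP_c5b475_co.KN.HstF

set_option autoImplicit false

/-!
# All trees with `n` edges decompose `K_{n,n}`, for all large `n`

This is the conjecture of Graham and Häggkvist for the hosts `K_{n,n}` and large `n`, without any
condition on the tree. The decomposition lifts to all graphs whose two sides are divided into `n`
classes such that every vertex has the same number of neighbours in each class of the other side
(`ClassRegular`), for instance `K_{an,bn}` and all coverings of `K_{n,n}`. The same holds for all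
bipartite covering graphs of the complete graph with `n + 1` vertices (`CoversComplete`), for
instance `K_{n+1,n+1}` minus a perfect matching. So the conjecture holds for large `n` for all hosts
with at most `2 n + 2` vertices (`small_hosts`).

Parts of the proof (all in `Pool/Agent/Lib/MP_c5b475_co`):
* trees with at least `10^(-11) n` non-leaf vertices (`KN`): a labelling modulo `n`, injective on the
  two colour classes, with different edge sums. Main stage `main_pieces`: a nibble (`NB`) for a family
  of rooted pieces of the tree, over the sets given by the configuration theorem `cfg_exists` (`CF`);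
  exact ends by double swaps and by absorption with bare paths;
* trees with fewer non-leaf vertices (`Few`): labelled cores, remaining leaves by matchings;
* `K_{n+1,n+1}` minus a perfect matching: one more pendant edge (`KN/HstB`, `KN/HstE`).
-/

namespace Pool.Agent.Results.MP_c5b475_co.AllTreesLargeN

open Pool.Agent.Lib.MP_c5b475_co

/-- For all large `n`, every tree `T` with `n` edges decomposes `K_{n,n}`, every graph `G` whose two
sides are divided into `n` classes each such that the vertices of one side have exactly `b`
neighbours in each class and the vertices of the other side exactly `a` (`a, b ≥ 1`), and every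
bipartite covering graph of the complete graph with `n + 1` vertices. -/
theorem result :
    ∃ n₀ : ℕ, ∀ n : ℕ, n₀ ≤ n → ∀ T : SimpleGraph (Fin (n + 1)), T.IsTree →
      Decomposes T (completeBipartiteGraph (Fin n) (Fin n)) ∧
        ∀ (V : Type) (G : SimpleGraph V),
          (∃ a b : ℕ, ClassRegular G n a b) ∨ CoversComplete G (n + 1) → Decomposes T G := by
  obtain ⟨n₀, h⟩ := KN.top
  obtain ⟨n₁, h1⟩ := KN.top_crown
  refine ⟨max n₀ n₁, fun n hn T hT => ?_⟩
  have hn0 : n₀ ≤ n := (le_max_left _ _).trans hn
  have hn1 : n₁ ≤ n := (le_max_right _ _).trans hn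
  refine ⟨h n hn0 T hT, fun V G hG => ?_⟩
  rcases hG with ⟨a, b, hG⟩ | hG
  · exact KN.lift_dec hT (h n hn0 T hT) hG
  · exact h1 n hn1 T hT V G hG

/-- Special case: all regular bipartite hosts with at most `2 n + 2` vertices. -/
theorem small_hosts : ∃ n₀ : ℕ, ∀ n : ℕ, n₀ ≤ n → ∀ T : SimpleGraph (Fin (n + 1)), T.IsTree →
    ∀ (V : Type) [Fintype V] [DecidableEq V] (G : SimpleGraph V) [DecidableRel G.Adj],
      G.IsRegularOfDegree n → G.IsBipartite → Fintype.card V ≤ 2 * n + 2 → Decomposes T G :=
  KN.hosts_small

/-- Special case: `K_{an,bn}`. -/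
theorem complete_multiples : ∃ n₀ : ℕ, ∀ n : ℕ, n₀ ≤ n → ∀ T : SimpleGraph (Fin (n + 1)),
    T.IsTree → ∀ a b : ℕ, 1 ≤ a → 1 ≤ b →
      Decomposes T (completeBipartiteGraph (Fin a × Fin n) (Fin b × Fin n)) := by
  obtain ⟨n₀, h⟩ := result
  exact ⟨n₀, fun n hn T hT a b ha hb =>
    (h n hn T hT).2 _ _ (Or.inl ⟨a, b, KN.classRegular_complete ha hb⟩)⟩

/-- Cyclic labellings: if at least `c n` vertices are not leaves and `n` is large, there are labels
modulo `n`, different inside each colour class, such that all `n` edge sums are different. -/
theorem cyclic (c : ℝ) (hc : 0 < c) : ∃ n₀ : ℕ, ∀ n : ℕ, n₀ ≤ n →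
    ∀ T : SimpleGraph (Fin (n + 1)), T.IsTree → c * n ≤ (Nat.card {u // IsInner T u} : ℝ) →
      ∀ s : Fin (n + 1) → Bool, (∀ u v, T.Adj u v → s u ≠ s v) →
        ∃ f : Fin (n + 1) → ZMod n, (∀ u v, s u = s v → f u = f v → u = v) ∧
          ∀ u v u' v', T.Adj u v → T.Adj u' v' → f u + f v = f u' + f v' →
            s(u, v) = s(u', v') := KN.top_cyclic c hc

end Pool.Agent.Results.MP_c5b475_co.AllTreesLargeN
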