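import Pool.Agent.Lib.MP_c5b475_co.AA.U.Main

set_option autoImplicit false

/-!
# Almost all regular bipartite graphs are decomposed by all trees

For all large `N` and all `n`, `d` with `(72 n) ^ (2 d + 3) ≤ N`, almost every `n`-regular bipartite graph with
classes `[N]`, `[N]` is decomposed by every tree with `n` edges and diameter at most `d`.  For `d = n` this is
every tree with `n` edges (`n` fixed, or growing up to a constant times `log N / log log N`).

Proof: by switchings, almost every such graph is locally sparse (at most `2 d + 1` vertices span at most as
many edges as vertices), has at most `√N` cycles of length at most `d` and expands.  Hence it has a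
perfect matching containing two edges of every cycle of length at most `d`.  The other edges are split
into perfect matchings, the `n` colours are identified with the edges of `T`, and `T` is walked along
the colours from every vertex of the first class: a copy that is not injective would contain a closed
trail of length at most `d` all of whose edges have different colours.
-/

namespace Pool.Agent.Results.MP_c5b475_co.AlmostAllHosts

open Pool.Agent.Lib.MP_c5b475_co Pool.Agent.Lib.MP_c5b475_co.AA

/-- For every `ε > 0` there is `N0` such that for all `N ≥ N0` and all `n`, `d` with
`(72 n) ^ (2 d + 3) ≤ N`: among all `n`-regular bipartite graphs with classes `Fin N` and `Fin N`, a proportion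
of at least `1 - ε` is decomposed by every tree with `n` edges and diameter at most `d`. -/
theorem result (ε : ℝ) (hε : 0 < ε) : ∃ N0 : ℕ, ∀ N n d : ℕ, N0 ≤ N →
    (72 * n) ^ (2 * d + 3) ≤ N →
    (1 - ε) * (Nat.card {G : SimpleGraph (Fin N ⊕ Fin N) // IsHost N n G} : ℝ) ≤
      Nat.card {G : SimpleGraph (Fin N ⊕ Fin N) // IsHost N n G ∧
        ∀ T : SimpleGraph (Fin (n + 1)), T.IsTree → (∀ u v, T.dist u v ≤ d) → Decomposes T G} :=
  U.almost_all ε hε

end Pool.Agent.Results.MP_c5b475_co.AlmostAllHosts
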