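import Pool.Agent.Lib.MP_c5b475_co.Final

set_option autoImplicit false

/-!
# Trees of diameter at most four decompose regular bipartite graphs

Every tree with `n` edges and diameter at most `4` decomposes every `n`-regular bipartite graph; more
generally every tree with `n` edges whose diameter is at most the girth of the `n`-regular bipartite
graph `G` decomposes `G`.

Proof: root the tree at a centre. A 1-factorization of `G` indexed by the edges of the tree gives
copies of the inner part of the tree by walking along the colours; the outermost edges are placed by
Galvin's theorem on list edge colourings of bipartite multigraphs.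
-/

namespace Pool.Agent.Results.MP_c5b475_co.DiameterAtMostGirth

/-- Let `T` be a tree with `n` edges and `G` a finite `n`-regular bipartite graph. If all distances
in `T` are at most `4`, or all distances in `T` are at most the girth of `G`, then there is a family of
embedded copies of `T` in `G` such that each edge of `G` lies in exactly one copy. -/
theorem result :
    ∀ (n : ℕ) (T : SimpleGraph (Fin (n + 1))), T.IsTree →
      ∀ (V : Type) [Fintype V] [DecidableEq V] (G : SimpleGraph V) [DecidableRel G.Adj],
        G.IsRegularOfDegree n → G.Colorable 2 →
        ((∀ u v, T.dist u v ≤ 4) ∨ (∀ u v, (T.dist u v : ℕ∞) ≤ G.egirth)) →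
          ∃ (ι : Type) (f : ι → (Fin (n + 1) ↪ V)),
            (∀ i, T.map (f i) ≤ G) ∧
            ∀ e ∈ G.edgeSet, ∃! i, e ∈ (T.map (f i)).edgeSet := by
  intro n T hT V _ _ G _ hG hb hd
  exact Pool.Agent.Lib.MP_c5b475_co.main n T hT V G hG hb hd

end Pool.Agent.Results.MP_c5b475_co.DiameterAtMostGirth
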