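import Pool.Agent.Lib.MP_c5b475_co.KN.HstF

set_option autoImplicit false

/-!
# Regular bipartite graphs divided into coverings of `K_{m,m}`

Let `G` be an `n`-regular bipartite graph whose vertices can be divided into parts and coloured with
`m` colours so that every vertex has in its own part exactly one neighbour of each colour (for
instance, a graph with a `K_{m,m}`-factor), or exactly one neighbour of each colour but its own. For
large `m`, every tree with `n` edges and at most `(1 - ε) m` non-leaf vertices decomposes `G`. There is
no other condition on `G`, on the edges between the parts, on the tree or on `n`.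

Parts of the proof (all in `Pool/Agent/Lib/MP_c5b475_co`):
* a subtree with `m` (or `m - 1`) edges which contains all non-leaf vertices and has itself many
  non-leaf vertices (`KN/HstB`) gets a labelling modulo `m`, injective on the two colour classes, with
  different edge sums (`KN/Cases`, the theorem behind `AllTreesLargeN`);
* its copies are walks inside the parts (`KN/HstC`); the other leaves are attached by the edges
  between the parts, by a theorem of Galvin;
* trees with fewer than `10^(-10) m` non-leaf vertices: `KN/CvL`.
-/

namespace Pool.Agent.Results.MP_c5b475_co.HostsWithParts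

open Pool.Agent.Lib.MP_c5b475_co

/-- For every `ε > 0` there is `m₀` such that for all `m ≥ m₀` and all `n` every tree with `n` edges
and at most `(1 - ε) m` non-leaf vertices decomposes every finite `n`-regular bipartite graph whose
vertices can be divided into parts and coloured with `m` colours so that every vertex has in its own
part exactly one neighbour of each colour, or exactly one neighbour of each colour but its own and
none of its own colour. -/
theorem result :
    ∀ ε : ℝ, 0 < ε → ∃ m₀ : ℕ, ∀ n m : ℕ, m₀ ≤ m → ∀ T : SimpleGraph (Fin (n + 1)), T.IsTree →
      (Nat.card {u // IsInner T u} : ℝ) ≤ (1 - ε) * m →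
      ∀ (V : Type) [Fintype V] [DecidableEq V] (G : SimpleGraph V) [DecidableRel G.Adj],
        G.IsRegularOfDegree n → PartRegular G m ∨ CrownRegular G m → Decomposes T G :=
  fun ε hε => KN.hosts_main ε hε

/-- Special case: hosts with a `K_{m,m}`-factor. -/
theorem factor (ε : ℝ) (hε : 0 < ε) : ∃ m₀ : ℕ, ∀ n m : ℕ, m₀ ≤ m →
    ∀ T : SimpleGraph (Fin (n + 1)), T.IsTree →
      (Nat.card {u // IsInner T u} : ℝ) ≤ (1 - ε) * m →
      ∀ (V : Type) [Fintype V] [DecidableEq V] (G : SimpleGraph V) [DecidableRel G.Adj],
        G.IsRegularOfDegree n → HasFactor G m → Decomposes T G := by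
  obtain ⟨m₀, h⟩ := result ε hε
  exact ⟨max m₀ 1, fun n m hm T hT hk V _ _ G _ hG hf =>
    h n m ((le_max_left _ _).trans hm) T hT hk V G hG
      (Or.inl (KN.factor_part ((le_max_right _ _).trans hm) hf))⟩

end Pool.Agent.Results.MP_c5b475_co.HostsWithParts
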